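import Mathlib

set_option autoImplicit false

namespace Pool.Agent.Results.MP_13df43_gt.NoStat

open Set Filter Topology

/-- `s` is a stationary winning strategy of player P in the game Ssp(X). -/
def StatWin {X : Type} [TopologicalSpace X] (s : Set X → X) : Prop :=
  (∀ U, IsOpen U → U.Nonempty → s U ∈ U) ∧
    ∀ U : ℕ → Set X, (∀ n, IsOpen (U n) ∧ (U n).Nonempty) →
      ∃ φ : ℕ → ℕ, StrictMono φ ∧ ∃ x, Tendsto (fun k => s (U (φ k))) atTop (𝓝 x)

abbrev A := ℝ → ZMod 2

def Sup (T : Set ℝ) (χ : A → ZMod 2) : Prop := ∀ a : A, (∀ i ∈ T, a i = 0) → χ a = 0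

def K (T : Set ℝ) : Set (A → ZMod 2) := {χ | (∀ a b, χ (a + b) = χ a + χ b) ∧ Sup T χ}

theorem K_closed (T : Set ℝ) : IsClosed (K T) := by
  have : K T = (⋂ a, ⋂ b, {χ : A → ZMod 2 | χ (a + b) = χ a + χ b}) ∩
      ⋂ a : A, ⋂ (_ : ∀ i ∈ T, a i = 0), {χ : A → ZMod 2 | χ a = 0} := by
    ext χ; simp [K, Sup]
  rw [this]
  refine IsClosed.inter (isClosed_iInter fun a => isClosed_iInter fun b => isClosed_eq (by fun_prop) (by fun_prop))
    (isClosed_iInter fun a => isClosed_iInter fun _ => isClosed_eq (by fun_prop) (by fun_prop))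

theorem K_mono {T T' : Set ℝ} (h : T ⊆ T') : K T ⊆ K T' :=
  fun _ hχ => ⟨hχ.1, fun a ha => hχ.2 a fun i hi => ha i (h hi)⟩

def G : AddSubgroup (A → ZMod 2) where
  carrier := {χ | ∃ T : Set ℝ, T.Countable ∧ χ ∈ K T}
  zero_mem' := ⟨∅, countable_empty, by simp, fun a _ => rfl⟩
  add_mem' := by
    rintro χ ψ ⟨T, hT, h⟩ ⟨T', hT', h'⟩
    refine ⟨T ∪ T', hT.union hT', fun a b => ?_, fun a ha => ?_⟩
    · simp only [Pi.add_apply, h.1 a b, h'.1 a b]; ring
    · simp only [Pi.add_apply, h.2 a fun i hi => ha i (Or.inl hi), h'.2 a fun i hi => ha i (Or.inr hi),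
        add_zero]
  neg_mem' := by
    rintro χ ⟨T, hT, h⟩
    refine ⟨T, hT, fun a b => ?_, fun a ha => ?_⟩
    · simp only [Pi.neg_apply, h.1 a b]; ring
    · simp only [Pi.neg_apply, h.2 a ha, neg_zero]

theorem bounded (H : AddSubgroup G) (hH : (H : Set G).Countable) : IsCompact (closure (H : Set G)) := by
  have h1 : ∀ g : G, ∃ T : Set ℝ, T.Countable ∧ g.1 ∈ K T := fun g => g.2
  choose T hT hK using h1
  have hc : (⋃ g ∈ (H : Set G), T g).Countable := hH.biUnion fun g _ => hT g
  have h2 : IsCompact (((↑) : G → (A → ZMod 2)) ⁻¹' K (⋃ g ∈ (H : Set G), T g)) := by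
    refine Topology.IsInducing.subtypeVal.isCompact_preimage' (K_closed _).isCompact ?_
    intro χ hχ
    exact ⟨⟨χ, _, hc, hχ⟩, rfl⟩
  refine h2.of_isClosed_subset isClosed_closure (closure_minimal ?_ ((K_closed _).preimage continuous_subtype_val))
  intro g hg
  exact K_mono (subset_biUnion_of_mem (u := T) hg) (hK g)

theorem exists_notMem {T : Set ℝ} (hT : T.Countable) : ∃ i, i ∉ T := by
  by_contra h
  push Not at h
  exact Cardinal.not_countable_real (hT.mono fun i _ => h i)

def U (i : ℝ) : Set G := {g | g.1 (Pi.single i 1) = 1}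

theorem U_open (i : ℝ) : IsOpen (U i) ∧ (U i).Nonempty := by
  refine ⟨?_, ⟨⟨fun a => a i, {i}, countable_singleton i, fun a b => rfl, fun a ha => ha i rfl⟩, by simp [U]⟩⟩
  have : Continuous fun g : G => g.1 (Pi.single i 1) := (continuous_apply _).comp continuous_subtype_val
  exact (isOpen_discrete {1}).preimage this

theorem result : ∃ (X : Type) (_ : AddCommGroup X) (_ : TopologicalSpace X),
    IsTopologicalAddGroup X ∧ T2Space X ∧
    (∀ H : AddSubgroup X, (H : Set X).Countable → IsCompact (closure (H : Set X))) ∧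
    ¬ ∃ s : Set X → X, StatWin s := by
  classical
  refine ⟨G, inferInstance, inferInstance, inferInstance, inferInstance, bounded, ?_⟩
  rintro ⟨s, hs, hw⟩
  have h1 : ∀ g : G, ∃ T : Set ℝ, T.Countable ∧ g.1 ∈ K T := fun g => g.2
  choose S hS hK using h1
  have h2 : ∀ T : {T : Set ℝ // T.Countable}, ∃ i, i ∉ T.1 := fun T => exists_notMem T.2
  choose c hc using h2
  let T : ℕ → {T : Set ℝ // T.Countable} := fun n => Nat.rec ⟨∅, countable_empty⟩
    (fun _ T => ⟨insert (c T) (T.1 ∪ S (s (U (c T)))), (T.2.union (hS _)).insert _⟩) n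
  have hT : ∀ n, (T (n + 1)).1 = insert (c (T n)) ((T n).1 ∪ S (s (U (c (T n))))) := fun n => rfl
  have hmono : Monotone fun n => (T n).1 := monotone_nat_of_le_succ fun n => by
    rw [hT]; exact fun i hi => Or.inr (Or.inl hi)
  let i : ℕ → ℝ := fun n => c (T n)
  let χ : ℕ → G := fun n => s (U (i n))
  have h3 : ∀ n, (χ n).1 (Pi.single (i n) 1) = 1 := fun n => hs _ (U_open _).1 (U_open _).2
  have h4 : ∀ m n, m < n → i n ∉ S (χ m) ∧ i n ≠ i m := fun m n h => by
    have h5 : i n ∉ (T (m + 1)).1 := fun h6 => hc (T n) (hmono h h6)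
    rw [hT] at h5
    exact ⟨fun h6 => h5 (Or.inr (Or.inr h6)), fun h6 => h5 (Or.inl h6)⟩
  obtain ⟨φ, hφ, x, hx⟩ := hw (fun n => U (i n)) fun n => U_open _
  have hinj : Function.Injective fun k => i (φ k) := by
    intro k l h
    rcases lt_trichotomy k l with h' | h' | h'
    · exact absurd h.symm (h4 _ _ (hφ h')).2
    · exact h'
    · exact absurd h (h4 _ _ (hφ h')).2
  let b : ℕ → A := fun n => Nat.rec 0
    (fun k b => b + Pi.single (i (φ k)) ((k : ZMod 2) - (χ (φ k)).1 b)) n
  have hb : ∀ k, b (k + 1) = b k + Pi.single (i (φ k)) ((k : ZMod 2) - (χ (φ k)).1 (b k)) := fun k => rfl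
  have hb1 : ∀ k, (χ (φ k)).1 (b (k + 1)) = k := fun k => by
    rw [hb, (hK _).1]
    generalize (χ (φ k)).1 (b k) = t
    have h0 : (χ (φ k)).1 0 = 0 := (hK _).2 0 fun _ _ => rfl
    have : ∀ e : ZMod 2, (χ (φ k)).1 (Pi.single (i (φ k)) e) = e := by
      intro e
      rcases (by decide : ∀ e : ZMod 2, e = 0 ∨ e = 1) e with rfl | rfl
      · rw [Pi.single_zero]; exact h0
      · exact h3 _
    rw [this]; ring
  have hb2 : ∀ k r, (∀ l, l < k → r ≠ i (φ l)) → b k r = 0 := by
    intro k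
    induction k with
    | zero => intro r _; rfl
    | succ k ih =>
      intro r hr
      rw [hb, Pi.add_apply, ih r fun l hl => hr l (by omega), Pi.single_eq_of_ne (hr k (by omega)), add_zero]
  have hb3 : ∀ l k, l < k → b k (i (φ l)) = b (l + 1) (i (φ l)) := by
    intro l k hk
    induction k, hk using Nat.le_induction with
    | base => rfl
    | succ k hk ih =>
      rw [hb, Pi.add_apply, ih, Pi.single_eq_of_ne, add_zero]
      exact fun h => absurd (hinj h) (by omega)
  let a : A := fun r => if h : ∃ l, r = i (φ l) then b (h.choose + 1) r else 0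
  have ha : ∀ k, (χ (φ k)).1 a = k := fun k => by
    have : a = b (k + 1) + (a - b (k + 1)) := by abel
    rw [this, (hK _).1, hb1, (hK _).2 (a - b (k + 1)), add_zero]
    intro r hr
    rw [Pi.sub_apply, sub_eq_zero]
    by_cases h : ∃ l, r = i (φ l)
    · have e : a r = b (h.choose + 1) r := dif_pos h
      have e' := h.choose_spec
      rw [e]
      generalize h.choose = l at e'
      subst e'
      by_cases hl : l < k + 1
      · exact (hb3 l _ hl).symm
      · exact absurd hr (h4 _ _ (hφ (by omega))).1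
    · have e : a r = 0 := dif_neg h
      rw [e, hb2 (k + 1) r fun l _ h' => h ⟨l, h'⟩]
  have h7 : Tendsto (fun k => (χ (φ k)).1 a) atTop (𝓝 (x.1 a)) :=
    (((continuous_apply a).comp continuous_subtype_val).tendsto x).comp hx
  simp only [ha, nhds_discrete, tendsto_pure, eventually_atTop] at h7
  obtain ⟨N, hN⟩ := h7
  have h8 := (hN N le_rfl).trans (hN (N + 1) (by omega)).symm
  simp at h8

end Pool.Agent.Results.MP_13df43_gt.NoStat
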